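import Pool.Agent.V8H64.PF.Main

set_option autoImplicit false

/-!
# Finitely generated subgroups of parafree groups

A non-trivial finitely generated normal subgroup of a parafree group (finitely generated or not)
has finite index. More generally: if a subgroup `H` generated by `d` elements of a parafree group
`P` of rank `r` contains a non-trivial power of every conjugate of one element `a ≠ 1` (for example
if `H` contains a non-trivial normal subgroup of `P`), then `r` and the index `[P : H]` are
finite and `[P : H] (r - 1) ≤ d - 1`, with equality for subgroups of finite index of free groups.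

The proof computes with the von Neumann dimension of the space of `ℓ²` cocycles of a finitely
generated subgroup of `P`.
-/

namespace Pool.Agent.Results.MP_f3dc04_al.IndexInequality

universe u v

/-- `P` is parafree, with the lower central quotients of the free group on `X`: it is residually
nilpotent and `P / γ_n(P) ≅ F / γ_n(F)` for all `n ≥ 1`, `F` the free group on `X`. (Mathlib's
`lowerCentralSeries` starts with the whole group at the index `0`, so its term of index `n` is
`γ_{n+1}`.) -/
def ParafreeOn (X : Type v) (P : Type u) [Group P] : Prop :=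
  (∀ x : P, (∀ n : ℕ, x ∈ (⊤ : Subgroup P).lowerCentralSeries n) → x = 1) ∧
  ∀ n : ℕ, Nonempty (P ⧸ (⊤ : Subgroup P).lowerCentralSeries n ≃*
    FreeGroup X ⧸ (⊤ : Subgroup (FreeGroup X)).lowerCentralSeries n)

open Pool.Agent.Results.MP_b9ac25_al.FreeTypeInduced Pool.Agent.V8H64.PF

/-- the case of rank at most one -/
theorem cyc {P : Type u} [Group P] {X : Type v} [hX : Subsingleton X] {φ : FreeGroup X →* P}
    (hφ : ∀ n : ℕ, Function.Bijective (induced φ n))
    (hres : ∀ x : P, (∀ n : ℕ, x ∈ lcs P n) → x = 1) (H : Subgroup P) (a : P) (ha : a ≠ 1)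
    (k : ℕ) (hk : 0 < k) (hak : a ^ k ∈ H) : Nonempty X ∧ H.index ≠ 0 := by
  classical
  -- the free group is cyclic, hence commutative
  have hcomm : ∀ v w : FreeGroup X, v * w = w * v := by
    intro v w
    rcases isEmpty_or_nonempty X with h | ⟨⟨x⟩⟩
    · exact Subsingleton.elim _ _
    · have h1 : ∀ v : FreeGroup X, v ∈ Subgroup.zpowers (FreeGroup.of x) := by
        intro v
        induction v using FreeGroup.induction_on with
        | C1 => exact one_mem _
        | of y => rw [Subsingleton.elim y x]; exact Subgroup.mem_zpowers _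
        | inv_of y h => exact inv_mem h
        | mul y z hy hz => exact mul_mem hy hz
      obtain ⟨m, rfl⟩ := h1 v
      obtain ⟨n, rfl⟩ := h1 w
      exact (Commute.refl (FreeGroup.of x)).zpow_zpow m n
  have h1 : lcs (FreeGroup X) 1 = ⊥ := by
    rw [lcs_succ, Subgroup.commutator_eq_bot_iff_le_centralizer]
    intro v _ w _
    exact hcomm w v
  have hsurj : Function.Surjective φ := by
    intro x
    obtain ⟨w, hw⟩ := exists_word hφ 1 x
    refine ⟨w, ?_⟩
    have h2 : ∀ n, (φ w)⁻¹ * x ∈ lcs P n := by
      intro n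
      rcases Nat.eq_zero_or_pos n with rfl | hn
      · exact Subgroup.mem_top _
      · obtain ⟨w', hw'⟩ := exists_word hφ n x
        have h3 : w' = w := by
          have h4 : (φ w')⁻¹ * x ∈ lcs P 1 := lcs_anti P hn hw'
          have h5 : φ (w⁻¹ * w') ∈ lcs P 1 := by
            have := mul_mem hw (inv_mem h4)
            rw [map_mul, map_inv]
            convert this using 1
            group
          have h6 : w⁻¹ * w' ∈ lcs (FreeGroup X) 1 := by
            have h7 : QuotientGroup.mk' (lcs P 1) (φ (w⁻¹ * w')) = 1 :=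
              (QuotientGroup.eq_one_iff _).2 h5
            rw [← induced_mk, ← map_one (induced φ 1)] at h7
            exact (QuotientGroup.eq_one_iff _).1 ((hφ 1).1 h7)
          rw [h1, Subgroup.mem_bot, inv_mul_eq_one] at h6
          exact h6.symm
        rw [← h3]
        exact hw'
    have h3 := hres _ h2
    rw [inv_mul_eq_one] at h3
    exact h3
  have hne : Nonempty X := by
    by_contra h
    rw [not_nonempty_iff] at h
    obtain ⟨w, hw⟩ := hsurj a
    apply ha
    rw [← hw, Subsingleton.elim w 1, map_one]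
  refine ⟨hne, ?_⟩
  obtain ⟨x⟩ := hne
  set t := φ (FreeGroup.of x) with ht
  have hz : ∀ y : P, ∃ n : ℤ, y = t ^ n := by
    intro y
    obtain ⟨w, rfl⟩ := hsurj y
    have h2 : w ∈ Subgroup.zpowers (FreeGroup.of x) := by
      induction w using FreeGroup.induction_on with
      | C1 => exact one_mem _
      | of y => rw [Subsingleton.elim y x]; exact Subgroup.mem_zpowers _
      | inv_of y h => exact inv_mem h
      | mul y z hy hz => exact mul_mem hy hz
    obtain ⟨n, rfl⟩ := h2
    exact ⟨n, by simp [ht]⟩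
  obtain ⟨n, hn⟩ := hz (a ^ k)
  have hn0 : n ≠ 0 := by
    rintro rfl
    rw [zpow_zero] at hn
    exact torsion_free hφ hres a ha (isOfFinOrder_iff_pow_eq_one.2 ⟨k, hk, hn⟩)
  have hfin : Finite (P ⧸ H) := by
    refine Finite.of_surjective (fun i : Fin n.natAbs => (QuotientGroup.mk (t ^ (i : ℕ)) : P ⧸ H)) ?_
    intro y
    obtain ⟨y, rfl⟩ := QuotientGroup.mk_surjective y
    obtain ⟨m, rfl⟩ := hz y
    have hpos : 0 < |n| := abs_pos.2 hn0
    have h3 : 0 ≤ m % |n| := Int.emod_nonneg _ hpos.ne'
    have h4 : m % |n| < |n| := Int.emod_lt_of_pos _ hpos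
    refine ⟨⟨(m % |n|).toNat, ?_⟩, ?_⟩
    · have : |n| = (n.natAbs : ℤ) := Int.abs_eq_natAbs n
      omega
    · change (QuotientGroup.mk (t ^ (m % |n|).toNat) : P ⧸ H) = QuotientGroup.mk (t ^ m)
      rw [QuotientGroup.eq]
      have e1 : t ^ (m % |n|).toNat = t ^ (m % |n|) := by
        rw [← zpow_natCast, Int.toNat_of_nonneg h3]
      rw [e1, ← zpow_neg, ← zpow_add]
      obtain ⟨c, hc⟩ : n ∣ -(m % |n|) + m := by
        rw [← abs_dvd]
        refine ⟨m / |n|, ?_⟩
        have := Int.emod_add_mul_ediv m |n|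
        linarith
      rw [hc, zpow_mul, ← hn]
      exact H.zpow_mem hak c
  exact Subgroup.index_ne_zero_of_finite

/-- **Main theorem.** -/
theorem general (X : Type v) (P : Type u) [Group P] (hP : ParafreeOn X P) (H : Subgroup P) (a : P)
    (ha : a ≠ 1) (hpow : ∀ g : P, ∃ k : ℕ, 0 < k ∧ g * a ^ k * g⁻¹ ∈ H) (S : Finset P)
    (hS : Subgroup.closure (S : Set P) = H) :
    Finite X ∧ H.index ≠ 0 ∧ H.index * (Nat.card X - 1) + 1 ≤ S.card := by
  classical
  obtain ⟨hres, hlcq⟩ := hP
  obtain ⟨φ, hφ⟩ := induced_of P X hlcq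
  obtain ⟨k, hk, hak⟩ : ∃ k : ℕ, 0 < k ∧ a ^ k ∈ H := by
    obtain ⟨k, hk, h⟩ := hpow 1
    exact ⟨k, hk, by simpa using h⟩
  have hpow' : ∀ g : P, ∃ k : ℕ, 0 < k ∧ g⁻¹ * a ^ k * g ∈ H := by
    intro g
    obtain ⟨k, hk, h⟩ := hpow g⁻¹
    exact ⟨k, hk, by simpa using h⟩
  have hak1 : a ^ k ≠ 1 := fun h =>
    torsion_free hφ hres a ha (isOfFinOrder_iff_pow_eq_one.2 ⟨k, hk, h⟩)
  have hS1 : 1 ≤ S.card := by
    rw [Nat.succ_le_iff, Finset.card_pos]
    by_contra hcon
    rw [Finset.not_nonempty_iff_eq_empty] at hcon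
    rw [hcon, Finset.coe_empty, Subgroup.closure_empty] at hS
    rw [← hS] at hak
    exact hak1 (Subgroup.mem_bot.1 hak)
  -- the inequality
  have key : ∀ (r : ℕ) (x : Fin r → X), Function.Injective x → ∀ (m : ℕ) (g : Fin m → P),
      (∀ t t' : Fin m, (g t)⁻¹ * g t' ∈ H → t = t') → (m : ℝ) * (r - 1) ≤ S.card - 1 := by
    intro r x hx m g hg
    refine parafree_ineq hφ hres H S.card (fun i => (S.equivFin.symm i : P)) ?_ a ha hpow' r x hx m
      g hg
    rw [← hS]
    congr 1
    ext y
    constructor
    · rintro ⟨i, rfl⟩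
      exact (S.equivFin.symm i).2
    · intro hy
      exact ⟨S.equivFin ⟨y, hy⟩, by simp⟩
  have hfinX : Finite X := by
    by_contra hinf
    rw [not_finite_iff_infinite] at hinf
    have h1 := key (S.card + 1) (fun i => Infinite.natEmbedding X i) (fun i j hij => by
      have := (Infinite.natEmbedding X).injective hij
      exact Fin.ext this) 1 (fun _ => 1) (fun t t' _ => Subsingleton.elim _ _)
    push_cast at h1
    linarith
  refine ⟨hfinX, ?_⟩
  by_cases hX1 : Subsingleton X
  · obtain ⟨hne, hind⟩ := cyc hφ hres H a ha k hk hak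
    refine ⟨hind, ?_⟩
    have : Nat.card X = 1 := Nat.card_eq_one_iff_unique.2 ⟨hX1, hne⟩
    rw [this]
    simpa using hS1
  · rw [not_subsingleton_iff_nontrivial] at hX1
    have hr : 1 < Nat.card X := Finite.one_lt_card_iff_nontrivial.2 hX1
    have hr' : (2 : ℝ) ≤ Nat.card X := by exact_mod_cast hr
    let e := (Finite.equivFin X).symm
    have key2 : ∀ (m : ℕ) (g : Fin m → P),
      (∀ t t' : Fin m, (g t)⁻¹ * g t' ∈ H → t = t') →
        (m : ℝ) * (Nat.card X - 1) ≤ S.card - 1 := fun m g hg =>
      key (Nat.card X) e e.injective m g hg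
    have hfin : Finite (P ⧸ H) := by
      by_contra hinf
      rw [not_finite_iff_infinite] at hinf
      have h1 := key2 S.card (fun i => (Infinite.natEmbedding (P ⧸ H) i).out) (by
        intro t t' h
        have h2 := QuotientGroup.eq.2 h
        rw [QuotientGroup.out_eq', QuotientGroup.out_eq'] at h2
        exact Fin.ext ((Infinite.natEmbedding (P ⧸ H)).injective h2))
      have h2 : (0 : ℝ) < S.card := by exact_mod_cast hS1
      nlinarith
    refine ⟨Subgroup.index_ne_zero_of_finite, ?_⟩
    let e' := (Finite.equivFin (P ⧸ H)).symm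
    have h1 := key2 (Nat.card (P ⧸ H)) (fun i => (e' i).out) (by
        intro t t' h
        have h2 := QuotientGroup.eq.2 h
        rw [QuotientGroup.out_eq', QuotientGroup.out_eq'] at h2
        exact e'.injective h2)
    have h2 : Nat.card (P ⧸ H) = H.index := rfl
    rw [h2] at h1
    have h3 : ((H.index * (Nat.card X - 1) + 1 : ℕ) : ℝ) ≤ (S.card : ℝ) := by
      push_cast [Nat.cast_sub hr.le]
      linarith
    exact_mod_cast h3

/-- **(1)** A non-trivial normal subgroup of infinite index of a parafree group (finitely generated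
or not) is not finitely generated.

**(2)** Let `P` be parafree with the lower central quotients of the free group on `X`, and let `H`
be the subgroup generated by the finite set `S`. If some `a ≠ 1` in `P` is such that every
conjugate of `a` has a power `g a^k g⁻¹`, `k > 0`, in `H`, then `X` is finite, `H` has finite
index, and `[P : H] (|X| - 1) + 1 ≤ |S|`. -/
theorem result :
    (∀ (X : Type v) (P : Type u) [Group P], ParafreeOn X P →
      ∀ N : Subgroup P, N.Normal → N ≠ ⊥ → N.index = 0 → ¬ N.FG) ∧
    (∀ (X : Type v) (P : Type u) [Group P], ParafreeOn X P →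
      ∀ (H : Subgroup P) (a : P), a ≠ 1 →
        (∀ g : P, ∃ k : ℕ, 0 < k ∧ g * a ^ k * g⁻¹ ∈ H) →
        ∀ S : Finset P, Subgroup.closure (S : Set P) = H →
          Finite X ∧ H.index ≠ 0 ∧ H.index * (Nat.card X - 1) + 1 ≤ S.card) := by
  refine ⟨?_, fun X P _ hP H a ha hpow S hS => general X P hP H a ha hpow S hS⟩
  intro X P _ hP N hN hN1 hind hfg
  obtain ⟨S, hS⟩ := hfg
  obtain ⟨a, haN, ha⟩ := (Subgroup.ne_bot_iff_exists_ne_one).1 hN1 |> fun ⟨a, ha⟩ =>
    (⟨a.1, a.2, fun h => ha (Subtype.ext h)⟩ : ∃ a : P, a ∈ N ∧ a ≠ 1)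
  exact (general X P hP N a ha (fun g => ⟨1, one_pos, by
    rw [pow_one]; exact hN.conj_mem a haN g⟩) S hS).2.1 hind

end Pool.Agent.Results.MP_f3dc04_al.IndexInequality
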